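import Pool.Agent.Helper940.GLFinal

set_option autoImplicit false

/-!
A contracting self-similar group with no finite L-presentation.

Words over the alphabet `Fin d` are lists; the group is a subgroup `G` of the permutations of the
set of words.  The conditions say: `d` is at least two; `G` is finitely generated; every element
fixes the empty word and sends `x w` to `y h(w)` for a letter `y` and an element `h` of `G` (so `G`
consists of tree automorphisms and is closed under sections); there is a finite subset `N` of `G`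
such that for every `g` the sections `g|_v` belong to `N` for all sufficiently long words `v`.
The last condition says that `G` is not isomorphic to `F / N'` where `F` is a free group of finite
rank and `N'` is the normal closure of `Q` and of all images of the elements of `R` under the monoid
generated by `Φ`, for finite `Q`, `R` and `Φ`.
-/

namespace Pool.Agent.Results.MP_374aea_al.NoLpres

/-- sections along words -/
theorem sections {d : ℕ} (G : Subgroup (Equiv.Perm (List (Fin d)))) (h0 : ∀ g ∈ G, g [] = [])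
    (h1 : ∀ g ∈ G, ∀ x : Fin d, ∃ y : Fin d, ∃ h ∈ G, ∀ w : List (Fin d), g (x :: w) = y :: h w)
    (v : List (Fin d)) : ∀ g ∈ G, ∃ h ∈ G, ∀ w : List (Fin d), g (v ++ w) = g v ++ h w := by
  induction v with
  | nil =>
    intro g hg
    exact ⟨g, hg, fun w => by rw [h0 g hg]; rfl⟩
  | cons x v ih =>
    intro g hg
    obtain ⟨y, s, hs, h2⟩ := h1 g hg x
    obtain ⟨h, hh, h3⟩ := ih s hs
    refine ⟨h, hh, fun w => ?_⟩
    rw [List.cons_append, h2, h2, h3, List.cons_append]

theorem result : ∃ (d : ℕ) (G : Subgroup (Equiv.Perm (List (Fin d)))),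
    2 ≤ d ∧ Group.FG G ∧
    (∀ g ∈ G, g [] = []) ∧
    (∀ g ∈ G, ∀ x : Fin d, ∃ y : Fin d, ∃ h ∈ G, ∀ w : List (Fin d), g (x :: w) = y :: h w) ∧
    (∃ N : Finset (Equiv.Perm (List (Fin d))), (∀ h ∈ N, h ∈ G) ∧
      ∀ g ∈ G, ∃ k : ℕ, ∀ v : List (Fin d), k ≤ v.length →
        ∃ h ∈ N, ∀ w : List (Fin d), g (v ++ w) = g v ++ h w) ∧
    ¬ ∃ (m : ℕ) (Q R : Finset (FreeGroup (Fin m))) (Φ : Finset (Monoid.End (FreeGroup (Fin m)))),
      Nonempty (G ≃* PresentedGroup ((Q : Set (FreeGroup (Fin m))) ∪ {x : FreeGroup (Fin m) |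
        ∃ φ ∈ Submonoid.closure (Φ : Set (Monoid.End (FreeGroup (Fin m)))), ∃ r ∈ R, x = φ r})) := by
  classical
  obtain ⟨d, G, h1, h2, h3, h4, ⟨N, hN⟩, h6⟩ := Pool.Agent.Helper940.GL.main
  refine ⟨d, G, h1, h2, h3, h4, ⟨N.filter fun h => h ∈ G, ?_, ?_⟩, h6⟩
  · intro h hh
    exact (Finset.mem_filter.1 hh).2
  · intro g hg
    obtain ⟨k, hk⟩ := hN g hg
    refine ⟨k, fun v hv => ?_⟩
    obtain ⟨h, hh, h7⟩ := sections G h3 h4 v g hg
    exact ⟨h, Finset.mem_filter.2 ⟨hk v hv h hh h7, hh⟩, h7⟩

end Pool.Agent.Results.MP_374aea_al.NoLpres
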